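import Pool.Agent.MP_c1891a_nt.H43.Spec
import Pool.Agent.MP_74e98a_nt.H25.Div

/-
The totient, the number of divisors, and torsion points as powers of one primitive root.
-/

namespace Pool.Agent.MP_c1891a_nt.H43

open Finset Filter

theorem sArith : SArith := by
  intro ε hε
  obtain ⟨C, -, hC⟩ := Pool.Agent.MP_74e98a_nt.H25.divisor_bound (ε / 2) (half_pos hε)
  have h1 : Tendsto (fun N : ℕ => (N : ℝ) ^ (ε / 2)) atTop atTop :=
    (tendsto_rpow_atTop (half_pos hε)).comp tendsto_natCast_atTop_atTop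
  obtain ⟨N₀, hN⟩ := eventually_atTop.1 (h1.eventually_ge_atTop C)
  refine ⟨max N₀ 1, fun N hN' => ?_⟩
  have hpos : 0 < N := lt_of_lt_of_le one_pos ((le_max_right _ _).trans hN')
  have hR : (0 : ℝ) < N := by exact_mod_cast hpos
  have hd : (N.divisors.card : ℝ) ≤ (N : ℝ) ^ ε := by
    refine (hC N).trans ?_
    conv_rhs => rw [← add_halves ε, Real.rpow_add hR]
    exact mul_le_mul_of_nonneg_right (hN N ((le_max_left _ _).trans hN')) (by positivity)
  refine ⟨?_, hd⟩
  have h2 : N ≤ N.divisors.card * N.totient := by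
    conv_lhs => rw [← Nat.sum_totient N]
    rw [← smul_eq_mul]
    exact sum_le_card_nsmul _ _ _ fun e he => Nat.le_of_dvd (Nat.totient_pos.2 hpos)
      (Nat.totient_dvd_of_dvd (Nat.dvd_of_mem_divisors he))
  have h3 : (N : ℝ) ≤ N.divisors.card * N.totient := by exact_mod_cast h2
  rw [Real.rpow_sub hR, Real.rpow_one, div_le_iff₀ (by positivity), mul_comm]
  exact h3.trans (mul_le_mul_of_nonneg_right hd (by positivity))

theorem sGen : SGen := by
  intro d x M hM hx
  have h1 : x ^ M = 1 := funext hx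
  have hN : 0 < orderOf x := (isOfFinOrder_iff_pow_eq_one.2 ⟨M, hM, h1⟩).orderOf_pos
  have hl : ∀ k : ℕ, (∀ i, x i ^ k = 1) → orderOf x ∣ k := fun k hk =>
    orderOf_dvd_of_pow_eq_one (funext hk)
  have hξ := Complex.isPrimitiveRoot_exp (orderOf x) hN.ne'
  have : NeZero (orderOf x) := ⟨hN.ne'⟩
  choose a _ ha using fun i => hξ.eq_pow_of_pow_eq_one (ξ := x i)
    (congrFun (pow_orderOf_eq_one x) i)
  refine ⟨orderOf x, _, fun i => a i, hN, hl M hx, hξ, fun κ hκ => ?_,
    fun i => by rw [zpow_natCast, ha], hl⟩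
  rw [← Int.dvd_natAbs, Int.natCast_dvd_natCast]
  refine hl _ fun i => ?_
  rw [← ha, ← pow_mul, hξ.pow_eq_one_iff_dvd, mul_comm]
  have := Int.natAbs_dvd_natAbs.2 (hκ i)
  rwa [Int.natAbs_mul, Int.natAbs_natCast, Int.natAbs_natCast] at this

end Pool.Agent.MP_c1891a_nt.H43
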